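import Pool.Agent.H54.RH.Targets

/-!
# Board `rhx_modules` (MP_def5ca_co), row OR: orientability
-/

set_option autoImplicit false

namespace Pool.Agent.H89.RHX

open Pool.Agent.H54.RH
open Pool.Agent.H54.PM (body IsGon IsEdge Un IsPM ver edg chi Ori)

variable {n : ℕ}

/-- the vertex of `h` with the letter 0 at `z` and the letter 2 at `y` -/
def V (h : W n) (z y : Fin n) : W n := Function.update (Function.update h z 0) y 2

theorem V_apply (h : W n) (z y t : Fin n) :
    V h z y t = if t = y then 2 else if t = z then 0 else h t := by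
  unfold V
  rw [Function.update_apply, Function.update_apply]

/-- the letters 1 of `h` are at the places `z`, `m`, `y` -/
structure Tri (h : W n) (z m y : Fin n) : Prop where
  zm : z ≠ m
  zy : z ≠ y
  my : m ≠ y
  one : ∀ t, h t = 1 ↔ (t = z ∨ t = m ∨ t = y)

theorem Tri.hz {h : W n} {z m y : Fin n} (T : Tri h z m y) : h z = 1 := (T.one z).2 (Or.inl rfl)
theorem Tri.hm {h : W n} {z m y : Fin n} (T : Tri h z m y) : h m = 1 :=
  (T.one m).2 (Or.inr (Or.inl rfl))
theorem Tri.hy {h : W n} {z m y : Fin n} (T : Tri h z m y) : h y = 1 :=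
  (T.one y).2 (Or.inr (Or.inr rfl))

theorem Tri.s1 {h : W n} {z m y : Fin n} (T : Tri h z m y) : Tri h m z y :=
  ⟨T.zm.symm, T.my, T.zy, fun t => by rw [T.one t]; tauto⟩
theorem Tri.s2 {h : W n} {z m y : Fin n} (T : Tri h z m y) : Tri h z y m :=
  ⟨T.zy, T.zm, T.my.symm, fun t => by rw [T.one t]; tauto⟩
theorem Tri.r {h : W n} {z m y : Fin n} (T : Tri h z m y) : Tri h y z m :=
  T.s2.s1

/-- even permutations -/
def ev (x y z : Fin n) : Prop := (x < y ∧ y < z) ∨ (y < z ∧ z < x) ∨ (z < x ∧ x < y)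

theorem ev_s1 {x y z : Fin n} (h1 : x ≠ y) (h2 : x ≠ z) (h3 : y ≠ z) : ev y x z ↔ ¬ ev x y z := by
  unfold ev
  rw [Fin.lt_def, Fin.lt_def, Fin.lt_def, Fin.lt_def, Fin.lt_def, Fin.lt_def]
  rw [Ne, Fin.ext_iff] at h1 h2 h3
  omega

theorem ev_s2 {x y z : Fin n} (h1 : x ≠ y) (h2 : x ≠ z) (h3 : y ≠ z) : ev x z y ↔ ¬ ev x y z := by
  unfold ev
  rw [Fin.lt_def, Fin.lt_def, Fin.lt_def, Fin.lt_def, Fin.lt_def, Fin.lt_def]
  rw [Ne, Fin.ext_iff] at h1 h2 h3
  omega

theorem ev_r {x y z : Fin n} : ev z x y ↔ ev x y z := by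
  unfold ev
  tauto

theorem f01 : (0 : Fin 3) ≠ 1 := by decide
theorem f21 : (2 : Fin 3) ≠ 1 := by decide
theorem f02 : (0 : Fin 3) ≠ 2 := by decide

theorem V_y (h : W n) (z y : Fin n) : V h z y y = 2 := by rw [V_apply, if_pos rfl]
theorem V_z (h : W n) {z y : Fin n} (hzy : z ≠ y) : V h z y z = 0 := by
  rw [V_apply, if_neg hzy, if_pos rfl]
theorem V_o (h : W n) {z y t : Fin n} (h1 : t ≠ z) (h2 : t ≠ y) : V h z y t = h t := by
  rw [V_apply, if_neg h2, if_neg h1]

/-- the places of a vertex are unique -/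
theorem V_inj {h : W n} {z m y z' m' y' : Fin n} (T : Tri h z m y) (T' : Tri h z' m' y')
    (e : V h z y = V h z' y') : z = z' ∧ m = m' ∧ y = y' := by
  have hz : z = z' := by
    have h1 : V h z' y' z = 0 := by rw [← e]; exact V_z h T.zy
    by_contra hne
    by_cases h2 : z = y'
    · rw [h2, V_y] at h1
      exact f02 h1.symm
    · rw [V_o h hne h2, T.hz] at h1
      exact f01 h1.symm
  have hy : y = y' := by
    have h1 : V h z' y' y = 2 := by rw [← e]; exact V_y h z y
    by_contra hne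
    by_cases h2 : y = z'
    · rw [h2, V_z h T'.zy] at h1
      exact f02 h1
    · rw [V_o h h2 hne, T.hy] at h1
      exact f21 h1.symm
  refine ⟨hz, ?_, hy⟩
  rcases (T'.one m).1 T.hm with h1 | h1 | h1
  · exact absurd (hz.trans h1.symm) T.zm
  · exact h1
  · exact absurd (h1.trans hy.symm) T.my

theorem V_ne {h : W n} {z m y : Fin n} (T : Tri h z m y) : V h z m ≠ V h m y := by
  intro e
  have h1 : V h m y z = 0 := by rw [← e]; exact V_z h T.zm
  rw [V_o h T.zm T.zy, T.hz] at h1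
  exact f01 h1.symm

theorem isVx_V {h : W n} {z m y : Fin n} (T : Tri h z m y) : IsVx h (V h z y) :=
  ⟨z, y, T.hz, T.hy, T.zy, rfl⟩

theorem tri_of_vx {h v : W n} (hc : (act h).card = 3) (hv : IsVx h v) :
    ∃ z m y, Tri h z m y ∧ v = V h z y := by
  obtain ⟨z, y, hz, hy, hzy, rfl⟩ := hv
  have h1 : z ∈ act h := Finset.mem_filter.2 ⟨Finset.mem_univ _, hz⟩
  have h2 : y ∈ (act h).erase z :=
    Finset.mem_erase.2 ⟨hzy.symm, Finset.mem_filter.2 ⟨Finset.mem_univ _, hy⟩⟩
  have h3 : (((act h).erase z).erase y).card = 1 := by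
    rw [Finset.card_erase_of_mem h2, Finset.card_erase_of_mem h1, hc]
  obtain ⟨m, hm⟩ := Finset.card_eq_one.1 h3
  have h4 : m ∈ ((act h).erase z).erase y := by rw [hm]; exact Finset.mem_singleton_self m
  have h5 := Finset.mem_erase.1 h4
  have h6 := Finset.mem_erase.1 h5.2
  refine ⟨z, m, y, ⟨h6.1.symm, hzy, h5.1, fun t => ⟨fun ht => ?_, ?_⟩⟩, rfl⟩
  · by_cases ha : t = z
    · exact Or.inl ha
    by_cases hb : t = y
    · exact Or.inr (Or.inr hb)
    have h7 : t ∈ ((act h).erase z).erase y := Finset.mem_erase.2 ⟨hb, Finset.mem_erase.2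
      ⟨ha, Finset.mem_filter.2 ⟨Finset.mem_univ _, ht⟩⟩⟩
    rw [hm] at h7
    exact Or.inr (Or.inl (Finset.mem_singleton.1 h7))
  · rintro (ht | ht | ht)
    · rw [ht]; exact hz
    · rw [ht]; exact (Finset.mem_filter.1 h6.2).2
    · rw [ht]; exact hy

/-- the edges -/
theorem edge_iff (h1 : T_HE) {h : W n} (hc : (act h).card = 3) (u v : Fin n → ℝ) :
    IsEdge (hf h) u v ↔ ∃ z m y, Tri h z m y ∧ u = pw (V h z y) ∧
      (v = pw (V h z m) ∨ v = pw (V h m y)) := by
  rw [h1 n h hc u v]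
  constructor
  · rintro ⟨a, a', rfl, rfl, ha, ha', hne, t, ht, hta, hta'⟩
    obtain ⟨z, m, y, T, rfl⟩ := tri_of_vx hc ha
    obtain ⟨z', m', y', T', rfl⟩ := tri_of_vx hc ha'
    refine ⟨z, m, y, T, rfl, ?_⟩
    rcases (T.one t).1 ht with rfl | rfl | rfl
    · left
      rw [V_z h T.zy] at hta
      have h2 : t = z' := by
        by_contra hn
        by_cases h3 : t = y'
        · rw [h3, V_y] at hta
          exact f02 hta
        · rw [V_o h hn h3, ht] at hta
          exact f01 hta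
      rw [← h2]
      rcases (T.one y').1 T'.hy with h3 | h3 | h3
      · exact absurd (h2.symm.trans h3.symm) T'.zy
      · rw [h3]
      · exact absurd (by rw [← h2, h3]) hne
    · rw [V_o h T.zm.symm T.my, ht] at hta'
      exact absurd rfl hta'
    · right
      rw [V_y] at hta
      have h2 : t = y' := by
        by_contra hn
        by_cases h3 : t = z'
        · rw [h3, V_z h T'.zy] at hta
          exact f02 hta.symm
        · rw [V_o h h3 hn, ht] at hta
          exact f21 hta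
      rw [← h2]
      rcases (T.one z').1 T'.hz with h3 | h3 | h3
      · exact absurd (by rw [← h2, h3]) hne
      · rw [h3]
      · exact absurd (h3.trans h2) T'.zy
  · rintro ⟨z, m, y, T, rfl, rfl | rfl⟩
    · refine ⟨_, _, rfl, rfl, isVx_V T, isVx_V T.s2, ?_, z, T.hz, ?_, ?_⟩
      · intro e
        exact T.my (V_inj T T.s2 e).2.1
      · rw [V_z h T.zy, V_z h T.zm]
      · rw [V_z h T.zy]; exact f01
    · refine ⟨_, _, rfl, rfl, isVx_V T, isVx_V T.s1, ?_, y, T.hy, ?_, ?_⟩
      · intro e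
        exact T.zm (V_inj T T.s1 e).1
      · rw [V_y, V_y]
      · rw [V_y]; exact f21

/-- the local orientation -/
def D0 (h a a' : W n) : Prop := ∃ z m y, Tri h z m y ∧ a = V h z y ∧
  ((ev z m y ∧ a' = V h z m) ∨ (¬ ev z m y ∧ a' = V h m y))

theorem D0_1 {h : W n} {z m y : Fin n} (T : Tri h z m y) :
    D0 h (V h z y) (V h z m) ↔ ev z m y := by
  constructor
  · rintro ⟨z', m', y', T', e, h1⟩
    obtain ⟨rfl, rfl, rfl⟩ := V_inj T T' e
    rcases h1 with h1 | h1
    · exact h1.1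
    · exact absurd h1.2 (V_ne T)
  · intro h1
    exact ⟨z, m, y, T, rfl, Or.inl ⟨h1, rfl⟩⟩

theorem D0_2 {h : W n} {z m y : Fin n} (T : Tri h z m y) :
    D0 h (V h z y) (V h m y) ↔ ¬ ev z m y := by
  constructor
  · rintro ⟨z', m', y', T', e, h1⟩
    obtain ⟨rfl, rfl, rfl⟩ := V_inj T T' e
    rcases h1 with h1 | h1
    · exact absurd h1.2.symm (V_ne T)
    · exact h1.1
  · intro h1
    exact ⟨z, m, y, T, rfl, Or.inr ⟨h1, rfl⟩⟩

/-- the reversed edges -/
theorem D0_3 {h : W n} {z m y : Fin n} (T : Tri h z m y) :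
    D0 h (V h z m) (V h z y) ↔ ¬ ev z m y := by
  rw [D0_1 T.s2]
  exact ev_s2 T.zm T.zy T.my

theorem D0_4 {h : W n} {z m y : Fin n} (T : Tri h z m y) :
    D0 h (V h m y) (V h z y) ↔ ev z m y := by
  rw [D0_2 T.s1, ev_s1 T.zm T.zy T.my, not_not]

/-- letters 1 between two places -/
theorem btw_odd {h : W n} {k p q l : Fin n} (T : Tri h k p q) (hl : h l ≠ 1) :
    Odd (btw h k l) ↔ (ev k p q ↔ ¬ ev l p q) := by
  classical
  have hlk : l ≠ k := fun e => hl (e ▸ T.hz)
  have hlp : l ≠ p := fun e => hl (e ▸ T.hm)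
  have hlq : l ≠ q := fun e => hl (e ▸ T.hy)
  have h1 : btw h k l = (if (k < p ∧ p < l) ∨ (l < p ∧ p < k) then 1 else 0) +
      (if (k < q ∧ q < l) ∨ (l < q ∧ q < k) then 1 else 0) := by
    unfold Pool.Agent.H54.RH.btw
    have h2 : (Finset.univ.filter fun t => h t = 1 ∧ ((k < t ∧ t < l) ∨ (l < t ∧ t < k))) =
        ({p, q} : Finset (Fin n)).filter fun t => (k < t ∧ t < l) ∨ (l < t ∧ t < k) := by
      ext t
      rw [Finset.mem_filter, Finset.mem_filter, Finset.mem_insert, Finset.mem_singleton, T.one t]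
      constructor
      · rintro ⟨-, h3, h4⟩
        refine ⟨?_, h4⟩
        rcases h3 with h3 | h3
        · rw [h3] at h4
          rcases h4 with h4 | h4
          · exact absurd h4.1 (lt_irrefl _)
          · exact absurd h4.2 (lt_irrefl _)
        · exact h3
      · rintro ⟨h3, h4⟩
        exact ⟨Finset.mem_univ _, Or.inr h3, h4⟩
    rw [h2, Finset.card_filter, Finset.sum_pair T.my]
  rw [h1]
  have a1 := T.zm
  have a2 := T.zy
  have a3 := T.my
  have key : ((k < p ∧ p < l) ∨ (l < p ∧ p < k) ↔ ¬ ((k < q ∧ q < l) ∨ (l < q ∧ q < k))) ↔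
      (ev k p q ↔ ¬ ev l p q) := by
    unfold ev
    rw [Ne, Fin.ext_iff] at hlk hlp hlq a1 a2 a3
    simp only [Fin.lt_def]
    omega
  rw [← key, Nat.odd_iff]
  by_cases c1 : (k < p ∧ p < l) ∨ (l < p ∧ p < k)
  · by_cases c2 : (k < q ∧ q < l) ∨ (l < q ∧ q < k)
    · rw [if_pos c1, if_pos c2]
      exact ⟨fun h => absurd h (by norm_num), fun h => absurd c2 (h.1 c1)⟩
    · rw [if_pos c1, if_neg c2]
      exact ⟨fun _ => ⟨fun _ => c2, fun _ => c1⟩, fun _ => rfl⟩
  · by_cases c2 : (k < q ∧ q < l) ∨ (l < q ∧ q < k)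
    · rw [if_neg c1, if_pos c2]
      exact ⟨fun _ => ⟨fun h => absurd h c1, fun h => absurd c2 h⟩, fun _ => rfl⟩
    · rw [if_neg c1, if_neg c2]
      exact ⟨fun h => absurd h (by norm_num), fun h => absurd (h.2 c2) c1⟩

/-- the neighbour at a letter 0 -/
theorem sw0 {h : W n} {z m y l : Fin n} (T : Tri h z m y) (hl : h l = 0) :
    Tri (sw h z l) l m y ∧ V (sw h z l) l y = V h z y ∧ V (sw h z l) l m = V h z m ∧
      (Odd (btw h z l) ↔ (ev z m y ↔ ¬ ev l m y)) := by
  have hl1 : h l ≠ 1 := by rw [hl]; exact f01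
  have hlk : l ≠ z := fun e => hl1 (e ▸ T.hz)
  have hlp : l ≠ m := fun e => hl1 (e ▸ T.hm)
  have hlq : l ≠ y := fun e => hl1 (e ▸ T.hy)
  refine ⟨⟨hlp, hlq, T.my, fun t => ?_⟩, ?_, ?_, btw_odd T hl1⟩
  · unfold sw
    by_cases h1 : t = z
    · rw [if_pos h1, hl, h1]
      refine ⟨fun h2 => absurd h2 f01, ?_⟩
      rintro (h2 | h2 | h2)
      · exact absurd h2.symm hlk
      · exact absurd h2 T.zm
      · exact absurd h2 T.zy
    · rw [if_neg h1]
      by_cases h2 : t = l
      · rw [if_pos h2]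
        exact ⟨fun _ => Or.inl h2, fun _ => T.hz⟩
      · rw [if_neg h2, T.one t]
        tauto
  · funext t
    rw [V_apply, V_apply]
    unfold sw
    by_cases h1 : t = y
    · rw [if_pos h1, if_pos h1]
    · rw [if_neg h1, if_neg h1]
      by_cases h2 : t = l
      · rw [if_pos h2, h2, if_neg hlk, hl]
      · rw [if_neg h2, if_neg h2, hl]
  · funext t
    rw [V_apply, V_apply]
    unfold sw
    by_cases h1 : t = m
    · rw [if_pos h1, if_pos h1]
    · rw [if_neg h1, if_neg h1]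
      by_cases h2 : t = l
      · rw [if_pos h2, h2, if_neg hlk, hl]
      · rw [if_neg h2, if_neg h2, hl]

/-- the neighbour at a letter 2 -/
theorem sw2 {h : W n} {z m y l : Fin n} (T : Tri h z m y) (hl : h l = 2) :
    Tri (sw h y l) z m l ∧ V (sw h y l) z l = V h z y ∧ V (sw h y l) m l = V h m y ∧
      (Odd (btw h y l) ↔ (ev z m y ↔ ¬ ev z m l)) := by
  have hl1 : h l ≠ 1 := by rw [hl]; exact f21
  have hlk : l ≠ z := fun e => hl1 (e ▸ T.hz)
  have hlp : l ≠ m := fun e => hl1 (e ▸ T.hm)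
  have hlq : l ≠ y := fun e => hl1 (e ▸ T.hy)
  refine ⟨⟨T.zm, hlk.symm, hlp.symm, fun t => ?_⟩, ?_, ?_, ?_⟩
  · unfold sw
    by_cases h1 : t = y
    · rw [if_pos h1, hl, h1]
      refine ⟨fun h2 => absurd h2 f21, ?_⟩
      rintro (h2 | h2 | h2)
      · exact absurd h2.symm T.zy
      · exact absurd h2.symm T.my
      · exact absurd h2.symm hlq
    · rw [if_neg h1]
      by_cases h2 : t = l
      · rw [if_pos h2]
        exact ⟨fun _ => Or.inr (Or.inr h2), fun _ => T.hy⟩
      · rw [if_neg h2, T.one t]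
        tauto
  · funext t
    rw [V_apply, V_apply]
    unfold sw
    by_cases h1 : t = y
    · rw [if_pos h1, if_pos h1, h1, if_neg hlq.symm, if_neg T.zy.symm, hl]
    · rw [if_neg h1, if_neg h1]
      by_cases h2 : t = l
      · rw [if_pos h2, h2, if_neg hlk, hl]
      · rw [if_neg h2, if_neg h2]
  · funext t
    rw [V_apply, V_apply]
    unfold sw
    by_cases h1 : t = y
    · rw [if_pos h1, if_pos h1, h1, if_neg hlq.symm, if_neg T.my.symm, hl]
    · rw [if_neg h1, if_neg h1]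
      by_cases h2 : t = l
      · rw [if_pos h2, h2, if_neg hlp, hl]
      · rw [if_neg h2, if_neg h2]
  · rw [btw_odd T.r hl1, ev_r (x := z) (y := m) (z := y), ev_r (x := z) (y := m) (z := l)]

theorem pw_inj {a b : W n} (h : pw a = pw b) : a = b := by
  funext t
  have h1 := congrFun h t
  unfold pw at h1
  exact Fin.ext (Nat.cast_injective h1)

/-- all permutations -/
theorem perm6 {h : W n} {R : Fin n → Fin n → Fin n → Prop}
    (h1 : ∀ z m y, Tri h z m y → (R z m y ↔ R m z y))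
    (h2 : ∀ z m y, Tri h z m y → (R z m y ↔ R z y m)) {z m y z' m' y' : Fin n}
    (T : Tri h z m y) (T' : Tri h z' m' y') : R z m y ↔ R z' m' y' := by
  have a1 := T.zm
  have a2 := T.zy
  have a3 := T.my
  have b1 := T'.zm
  have b2 := T'.zy
  have b3 := T'.my
  rcases (T.one z').1 T'.hz with rfl | rfl | rfl <;>
    rcases (T.one m').1 T'.hm with rfl | rfl | rfl <;>
    rcases (T.one y').1 T'.hy with rfl | rfl | rfl <;>
    first
      | exact absurd rfl b1
      | exact absurd rfl b2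
      | exact absurd rfl b3
      | exact Iff.rfl
      | exact h1 _ _ _ T
      | exact h2 _ _ _ T
      | exact (h1 _ _ _ T).trans (h2 _ _ _ T.s1)
      | exact (h2 _ _ _ T).trans (h1 _ _ _ T.s2)
      | exact ((h2 _ _ _ T).trans (h1 _ _ _ T.s2)).trans (h2 _ _ _ T.s2.s1)

theorem pf_OR (h1 : T_HE) (h2 : T_HX) (h3 : T_HS) : T_OR := by
  classical
  intro n b M hM
  have hmem : ∀ A, A ∈ hfam M ↔ ∃ h ∈ M, hf h = A := by
    intro A
    unfold hfam
    rw [Finset.mem_image]
  have hinj : ∀ h ∈ M, ∀ g ∈ M, hf h = hf g → h = g := by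
    intro h hh g hg e
    by_contra hne
    exact (h2 n h g (hM.three h hh).1 (hM.three g hg).1
      ((hM.three h hh).2.trans (hM.three g hg).2.symm) hne).2.2 e
  constructor
  · rintro ⟨D, hD1, hD2, hD3⟩
    have hA : ∀ h ∈ M, hf h ∈ hfam M := fun h hh => (hmem _).2 ⟨h, hh, rfl⟩
    have he1 : ∀ h ∈ M, ∀ z m y, Tri h z m y → IsEdge (hf h) (pw (V h z y)) (pw (V h z m)) :=
      fun h hh z m y T => (edge_iff h1 (hM.three h hh).1 _ _).2 ⟨z, m, y, T, rfl, Or.inl rfl⟩
    have he2 : ∀ h ∈ M, ∀ z m y, Tri h z m y → IsEdge (hf h) (pw (V h z y)) (pw (V h m y)) :=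
      fun h hh z m y T => (edge_iff h1 (hM.three h hh).1 _ _).2 ⟨z, m, y, T, rfl, Or.inr rfl⟩
    let P : W n → Fin n → Fin n → Fin n → Prop := fun h z m y =>
      (D (hf h) (pw (V h z y)) (pw (V h z m)) ↔ ev z m y)
    have hP2 : ∀ h ∈ M, ∀ z m y, Tri h z m y → (P h z m y ↔ P h z y m) := by
      intro h hh z m y T
      have a1 := hD1 _ (hA h hh) _ _ (he1 h hh z m y T)
      have a2 := ev_s2 T.zm T.zy T.my
      simp only [P]
      grind only
    have hQ : ∀ h ∈ M, ∀ z m y, Tri h z m y →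
        ((D (hf h) (pw (V h z y)) (pw (V h m y)) ↔ ¬ ev z m y) ↔ P h z m y) := by
      intro h hh z m y T
      have a1 := hD1 _ (hA h hh) _ _ (he1 h hh z m y T)
      have a3 := hD2 _ (hA h hh) _ _ _ (he1 h hh z y m T.s2) (he2 h hh z m y T)
        (fun e => V_ne T (pw_inj e))
      simp only [P]
      grind only
    have hP1 : ∀ h ∈ M, ∀ z m y, Tri h z m y → (P h z m y ↔ P h m z y) := by
      intro h hh z m y T
      rw [← hQ h hh z m y T, ← hQ h hh m z y T.s1]
      have a1 := hD1 _ (hA h hh) _ _ (he2 h hh z m y T)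
      have a2 := ev_s1 T.zm T.zy T.my
      grind only
    have hall : ∀ h ∈ M, ∀ z m y z' m' y', Tri h z m y → Tri h z' m' y' →
        (P h z m y ↔ P h z' m' y') := fun h hh z m y z' m' y' T T' =>
      perm6 (R := P h) (hP1 h hh) (hP2 h hh) T T'
    let s : W n → Bool := fun h => decide (∀ z m y, Tri h z m y → P h z m y)
    have hs : ∀ h ∈ M, ∀ z m y, Tri h z m y → (s h = true ↔ P h z m y) := by
      intro h hh z m y T
      simp only [s, decide_eq_true_eq]
      exact ⟨fun h4 => h4 z m y T, fun h4 z' m' y' T' => (hall h hh _ _ _ _ _ _ T T').1 h4⟩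
    refine ⟨s, fun h hh k l hk hl hg => ?_⟩
    have hne : h ≠ sw h k l := by
      intro e
      have h4 := congrFun e k
      unfold sw at h4
      rw [if_pos rfl] at h4
      exact hl (h4.symm.trans hk)
    have hv : ∃ z m y, Tri h z m y := by
      have h4 : 1 < (act h).card := by rw [(hM.three h hh).1]; norm_num
      obtain ⟨z, hz, y, hy, hzy⟩ := Finset.one_lt_card.1 h4
      obtain ⟨z', m', y', T, -⟩ := tri_of_vx (hM.three h hh).1
        ⟨z, y, (Finset.mem_filter.1 hz).2, (Finset.mem_filter.1 hy).2, hzy, rfl⟩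
      exact ⟨z', m', y', T⟩
    have hk' : ∃ m y, Tri h k m y := by
      obtain ⟨z, m, y, T⟩ := hv
      rcases (T.one k).1 hk with rfl | rfl | rfl
      · exact ⟨m, y, T⟩
      · exact ⟨z, y, T.s1⟩
      · exact ⟨z, m, T.r⟩
    obtain ⟨p, q, T⟩ := hk'
    have hl3 : h l = 0 ∨ h l = 2 := by
      revert hl
      generalize h l = x
      revert x
      decide
    rw [Bool.eq_iff_iff]
    rcases hl3 with h0 | h0
    · obtain ⟨T', e1, e2, e3⟩ := sw0 T h0
      rw [e3, hs _ hg _ _ _ T', hs _ hh _ _ _ T]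
      simp only [P]
      rw [e1, e2]
      have a1 := he1 h hh k p q T
      have a2 := he1 _ hg l p q T'
      rw [e1, e2] at a2
      have a3 := hD3 _ (hA h hh) _ (hA _ hg) (fun e => hne (hinj _ hh _ hg e)) _ _ a1 a2
      have a4 := hD1 _ (hA _ hg) _ _ a2
      grind only
    · have T2 : Tri h p q k := T.r.r
      obtain ⟨T', e1, e2, e3⟩ := sw2 T2 h0
      rw [e3, hs _ hg _ _ _ T', hs _ hh _ _ _ T2, ← hQ _ hg _ _ _ T', ← hQ _ hh _ _ _ T2]
      rw [e1, e2]
      have a1 := he2 h hh p q k T2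
      have a2 := he2 _ hg p q l T'
      rw [e1, e2] at a2
      have a3 := hD3 _ (hA h hh) _ (hA _ hg) (fun e => hne (hinj _ hh _ hg e)) _ _ a1 a2
      have a4 := hD1 _ (hA _ hg) _ _ a2
      grind only
  · rintro ⟨s, hs⟩
    let D : Finset (Fin n → ℝ) → (Fin n → ℝ) → (Fin n → ℝ) → Prop := fun A u v =>
      ∃ h ∈ M, ∃ a a', A = hf h ∧ u = pw a ∧ v = pw a' ∧ (D0 h a a' ↔ s h = true)
    have hD : ∀ h ∈ M, ∀ a a', D (hf h) (pw a) (pw a') ↔ (D0 h a a' ↔ s h = true) := by
      intro h hh a a'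
      constructor
      · rintro ⟨g, hg, c, c', e1, e2, e3, e4⟩
        obtain rfl := hinj h hh g hg e1
        obtain rfl := pw_inj e2
        obtain rfl := pw_inj e3
        exact e4
      · intro e4
        exact ⟨h, hh, a, a', rfl, rfl, rfl, e4⟩
    refine ⟨D, ?_, ?_, ?_⟩
    · intro A hA u v he
      obtain ⟨h, hh, rfl⟩ := (hmem A).1 hA
      obtain ⟨z, m, y, T, rfl, rfl | rfl⟩ := (edge_iff h1 (hM.three h hh).1 u v).1 he
      · rw [hD h hh, hD h hh, D0_1 T, D0_3 T]
        grind only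
      · rw [hD h hh, hD h hh, D0_2 T, D0_4 T]
        grind only
    · intro A hA u v w he he' hne
      obtain ⟨h, hh, rfl⟩ := (hmem A).1 hA
      obtain ⟨z, m, y, T, rfl, hw⟩ := (edge_iff h1 (hM.three h hh).1 v w).1 he'
      obtain ⟨z', m', y', T', rfl, hv⟩ := (edge_iff h1 (hM.three h hh).1 u _).1 he
      rcases hv with hv | hv
      · obtain ⟨rfl, rfl, rfl⟩ := V_inj T T'.s2 (pw_inj hv)
        rcases hw with rfl | rfl
        · exact absurd rfl hne
        · rw [hD h hh, hD h hh, D0_3 T, D0_2 T]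
      · obtain ⟨rfl, rfl, rfl⟩ := V_inj T T'.s1 (pw_inj hv)
        rcases hw with rfl | rfl
        · rw [hD h hh, hD h hh, D0_4 T, D0_1 T]
        · exact absurd rfl hne
    · intro A hA B hB hAB u v he he'
      obtain ⟨h, hh, rfl⟩ := (hmem A).1 hA
      obtain ⟨g, hg, rfl⟩ := (hmem B).1 hB
      have hne : h ≠ g := fun e => hAB (by rw [e])
      obtain ⟨z, m, y, T, rfl, hv⟩ := (edge_iff h1 (hM.three h hh).1 u v).1 he
      rcases hv with rfl | rfl
      · obtain ⟨k, l, hk, hl, rfl, ha, ha'⟩ := h3 n h g _ _ (hM.three h hh).1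
          (hM.three g hg).1 ((hM.three h hh).2.trans (hM.three g hg).2.symm) hne he he'
        have hkz : k = z := by
          rcases (T.one k).1 hk with rfl | rfl | rfl
          · rfl
          · rw [V_o h T.zm.symm T.my, hk] at ha
            exact absurd ha.symm hl
          · rw [V_o h T.zy.symm T.my.symm, hk] at ha'
            exact absurd ha'.symm hl
        subst hkz
        rw [V_z h T.zy] at ha
        obtain ⟨T', e1, e2, e3⟩ := sw0 T ha.symm
        have a1 := hs h hh k l hk hl hg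
        rw [e3] at a1
        rw [hD h hh, hD _ hg, D0_1 T]
        rw [← e1, ← e2, D0_3 T']
        rw [Bool.eq_iff_iff] at a1
        grind only
      · obtain ⟨k, l, hk, hl, rfl, ha, ha'⟩ := h3 n h g _ _ (hM.three h hh).1
          (hM.three g hg).1 ((hM.three h hh).2.trans (hM.three g hg).2.symm) hne he he'
        have hkz : k = y := by
          rcases (T.one k).1 hk with rfl | rfl | rfl
          · rw [V_o h T.zm T.zy, hk] at ha'
            exact absurd ha'.symm hl
          · rw [V_o h T.zm.symm T.my, hk] at ha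
            exact absurd ha.symm hl
          · rfl
        subst hkz
        rw [V_y] at ha
        obtain ⟨T', e1, e2, e3⟩ := sw2 T ha.symm
        have a1 := hs h hh k l hk hl hg
        rw [e3] at a1
        rw [hD h hh, hD _ hg, D0_2 T]
        rw [← e1, ← e2, D0_4 T']
        rw [Bool.eq_iff_iff] at a1
        grind only

end Pool.Agent.H89.RHX
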